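import Pool.Agent.H48.SL2

/-!
# A maximal chain of length two of group topologies with a chain of the type of the reals inside

Group topologies are compared by inclusion of their families of open sets, as in the problem:
the finer topology is the larger one.
-/

namespace Pool.Agent.Results.MP_2f4300_al.RealChain

/-- `τ` is a group topology: multiplication and inversion are continuous. -/
def IsGroupTopology {G : Type} [Group G] (τ : TopologicalSpace G) : Prop :=
  @Continuous (G × G) G (@instTopologicalSpaceProd G G τ τ) τ (fun p => p.1 * p.2) ∧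
    @Continuous G G τ τ (fun x => x⁻¹)

/-- `τ < σ`: every `τ`-open set is `σ`-open, and some `σ`-open set is not `τ`-open. -/
def Less {G : Type} (τ σ : TopologicalSpace G) : Prop :=
  (∀ U : Set G, @IsOpen G τ U → @IsOpen G σ U) ∧ ∃ U : Set G, @IsOpen G σ U ∧ ¬ @IsOpen G τ U

open Pool.Agent.H48 Pool.Agent.H48.Wr Pool.Agent.H48.E8

theorem less_iff {G : Type} {τ σ : TopologicalSpace G} : Less τ σ ↔ σ < τ := by
  rw [lt_iff_le_not_ge, TopologicalSpace.le_def, TopologicalSpace.le_def]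
  constructor
  · rintro ⟨h1, U, h2, h3⟩
    exact ⟨fun V hV => h1 V hV, fun h => h3 (h U h2)⟩
  · rintro ⟨h1, h2⟩
    refine ⟨fun U hU => h1 U hU, ?_⟩
    by_contra hcon
    push Not at hcon
    exact h2 (fun U hU => hcon U hU)

theorem isGroupTopology_of {G : Type} [Group G] (g : GroupTopology G) :
    IsGroupTopology g.toTopologicalSpace := by
  let _ := g.toTopologicalSpace
  have := g.toIsTopologicalGroup
  exact ⟨continuous_mul, continuous_inv⟩

theorem exists_of_isGroupTopology {G : Type} [Group G] {τ : TopologicalSpace G}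
    (h : IsGroupTopology τ) : ∃ g : GroupTopology G, g.toTopologicalSpace = τ := by
  let _ := τ
  have h1 : ContinuousMul G := ⟨h.1⟩
  have h2 : ContinuousInv G := ⟨h.2⟩
  exact ⟨{ toTopologicalSpace := τ, toIsTopologicalGroup := { h1, h2 with } }, rfl⟩

theorem lt_iff_top {G : Type} [Group G] {a b : GroupTopology G} :
    a < b ↔ a.toTopologicalSpace < b.toTopologicalSpace := Iff.rfl

/-- upper triangular matrices whose infinitesimal part on the diagonal lies in `A` -/
def KA (A : AddSubgroup ℚ) : Subgroup E8 where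
  carrier := {x | x.c = 0 ∧ x.c' = 0 ∧ ∃ t ∈ A, x.a' = t * x.a}
  mul_mem' := by
    rintro x y ⟨h1, h2, k, hkA, hk⟩ ⟨h1', h2', l, hlA, hl⟩
    refine ⟨?_, ?_, k + l, A.add_mem hkA hlA, ?_⟩
    · simp [h1, h1']
    · simp [h1, h1', h2, h2']
    · simp only [mul_a', mul_a, h1', h2', hk, hl]
      ring
  one_mem' := ⟨rfl, rfl, 0, A.zero_mem, by simp⟩
  inv_mem' := by
    rintro x ⟨h1, h2, k, hkA, hk⟩
    refine ⟨by simp [h1], by simp [h2], -k, A.neg_mem hkA, ?_⟩
    have h3 := ad_of_c h1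
    have h4 := x.det'
    rw [h1, h2] at h4
    simp only [inv_a', inv_a]
    have h5 : x.a ≠ 0 := by
      rintro h
      rw [h] at h3
      norm_num at h3
    apply mul_left_cancel₀ h5
    rw [hk] at h4
    linear_combination h4

theorem dg_mem_KA {A : AddSubgroup ℚ} {t : ℚ} : dg t ∈ KA A ↔ t ∈ A := by
  constructor
  · rintro ⟨-, -, s, hs, h⟩
    have : t = s := by simpa [dg] using h
    rwa [this]
  · intro h
    exact ⟨rfl, rfl, t, h, by simp [dg]⟩

theorem KA_le_iff {A B : AddSubgroup ℚ} : KA A ≤ KA B ↔ A ≤ B := by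
  constructor
  · intro h t ht
    exact dg_mem_KA.1 (h (dg_mem_KA.2 ht))
  · rintro h x ⟨h1, h2, t, ht, h3⟩
    exact ⟨h1, h2, t, h ht, h3⟩

theorem KA_lt_iff {A B : AddSubgroup ℚ} : KA A < KA B ↔ A < B := by
  rw [lt_iff_le_not_ge, lt_iff_le_not_ge, KA_le_iff, KA_le_iff]

theorem H2_lt_KA (A : AddSubgroup ℚ) : H2 < KA A := by
  rw [lt_iff_le_not_ge]
  refine ⟨?_, fun h => ?_⟩
  · rintro x ⟨h1, h2, h3, h4, h5⟩
    exact ⟨h5, h3, 0, A.zero_mem, by simp [h1]⟩
  · have h1 : (⟨1, 0, 0, 1, 0, 1, 0, 0, by norm_num, by norm_num⟩ : E8) ∈ KA A :=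
      ⟨rfl, rfl, 0, A.zero_mem, by simp⟩
    have h2 := h h1
    rw [mem_H2] at h2
    norm_num at h2

theorem KA_lt_top (A : AddSubgroup ℚ) : KA A < ⊤ := by
  rw [lt_top_iff_ne_top]
  intro h
  have h1 : (⟨0, -1, 1, 0, 0, 0, 0, 0, by norm_num, by norm_num⟩ : E8) ∈ KA A := by
    rw [h]; trivial
  have h2 := h1.1
  norm_num at h2

/-- rationals all prime factors of whose denominators lie in `S` -/
def loc (S : Set ℕ) : AddSubgroup ℚ where
  carrier := {t | ∀ p : ℕ, p.Prime → p ∣ t.den → p ∈ S}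
  add_mem' := by
    intro a b ha hb p hp h
    have h1 : p ∣ a.den * b.den := h.trans (Rat.add_den_dvd a b)
    rcases (Nat.Prime.dvd_mul hp).1 h1 with h2 | h2
    · exact ha p hp h2
    · exact hb p hp h2
  zero_mem' := by
    intro p hp h
    have : p ∣ 1 := by simpa using h
    exact absurd (Nat.dvd_one.1 this) hp.one_lt.ne'
  neg_mem' := by
    intro a ha p hp h
    exact ha p hp (by simpa using h)

theorem loc_lt {S T : Set ℕ} (h : S ⊆ T) {p : ℕ} (hp : p.Prime) (hpT : p ∈ T) (hpS : p ∉ S) :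
    loc S < loc T := by
  rw [lt_iff_le_not_ge]
  refine ⟨fun t ht q hq hqt => h (ht q hq hqt), fun hle => ?_⟩
  have hden : ((p : ℚ)⁻¹).den = p := by
    rw [Rat.inv_natCast_den]
    simp [hp.ne_zero]
  have h1 : (p : ℚ)⁻¹ ∈ loc T := by
    intro q hq hqt
    rw [hden] at hqt
    rwa [(Nat.prime_dvd_prime_iff_eq hq hp).1 hqt]
  exact hpS (hle h1 p hp (by rw [hden]))

/-- a chain of sets of primes -/
theorem exists_chain : ∃ S : ℝ → Set ℕ, ∀ x y, x < y →
    S y ⊆ S x ∧ ∃ p : ℕ, p.Prime ∧ p ∈ S x ∧ p ∉ S y := by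
  obtain ⟨q, hq⟩ := exists_surjective_nat ℚ
  refine ⟨fun x => {p | x < q (Nat.count Nat.Prime p)}, ?_⟩
  intro x y hxy
  refine ⟨fun p hp => lt_trans hxy hp, ?_⟩
  obtain ⟨r, hr1, hr2⟩ := exists_rat_btwn hxy
  obtain ⟨n, hn⟩ := hq r
  refine ⟨Nat.nth Nat.Prime n, Nat.prime_nth_prime n, ?_, ?_⟩
  · show x < q (Nat.count Nat.Prime (Nat.nth Nat.Prime n))
    rw [Nat.count_nth_of_infinite Nat.infinite_setOfPred_prime, hn]
    exact hr1
  · show ¬ y < q (Nat.count Nat.Prime (Nat.nth Nat.Prime n))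
    rw [Nat.count_nth_of_infinite Nat.infinite_setOfPred_prime, hn]
    exact not_lt.2 hr2.le

/-- There is a countable infinite group with Hausdorff non-discrete group topologies
`τ 0 < τ 1 < τ 2` (inclusion of the families of open sets) such that no group topology lies
strictly between `τ 0` and `τ 1`, nor between `τ 1` and `τ 2`, and such that between `τ 0` and
`τ 2` there is a chain of Hausdorff group topologies indexed increasingly by the real line. -/
theorem result :
    ∃ (G : Type) (_ : Group G), Countable G ∧ Infinite G ∧ ∃ τ : Fin 3 → TopologicalSpace G,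
      (∀ i, IsGroupTopology (τ i) ∧ @T2Space G (τ i) ∧ ¬ @DiscreteTopology G (τ i)) ∧
      Less (τ 0) (τ 1) ∧ Less (τ 1) (τ 2) ∧
      (∀ σ : TopologicalSpace G, IsGroupTopology σ → ¬ (Less (τ 0) σ ∧ Less σ (τ 1))) ∧
      (∀ σ : TopologicalSpace G, IsGroupTopology σ → ¬ (Less (τ 1) σ ∧ Less σ (τ 2))) ∧
      ∃ c : ℝ → TopologicalSpace G,
        (∀ x, IsGroupTopology (c x) ∧ @T2Space G (c x) ∧ Less (τ 0) (c x) ∧ Less (c x) (τ 2)) ∧
        ∀ x y, x < y → Less (c x) (c y) := by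
  obtain ⟨S, hS⟩ := exists_chain
  refine ⟨Wr E8, inferInstance, wr_countable, wr_infinite,
    ![(tau ⊤).toTopologicalSpace, (tau H1).toTopologicalSpace, (tau H2).toTopologicalSpace],
    ?_, ?_, ?_, ?_, ?_, fun x => (tau (KA (loc (S x)))).toTopologicalSpace, ?_, ?_⟩
  · have key : ∀ H : Subgroup E8, IsGroupTopology (tau H).toTopologicalSpace ∧
        @T2Space (Wr E8) (tau H).toTopologicalSpace ∧
        ¬ @DiscreteTopology (Wr E8) (tau H).toTopologicalSpace := by
      intro H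
      exact ⟨isGroupTopology_of _, tau_t2 _, fun h => tau_ne_bot H h.eq_bot⟩
    intro i
    fin_cases i
    · exact key _
    · exact key _
    · exact key _
  · exact less_iff.2 (lt_iff_top.1 (tau_lt_iff.2 H1_lt_top))
  · exact less_iff.2 (lt_iff_top.1 (tau_lt_iff.2 H2_lt_H1))
  · rintro σ hσ ⟨h1, h2⟩
    obtain ⟨g, rfl⟩ := exists_of_isGroupTopology hσ
    exact (cover_of_strongMax H1_lt_top strongMax_H1).2
      (lt_iff_top.2 (less_iff.1 h2)) (lt_iff_top.2 (less_iff.1 h1))
  · rintro σ hσ ⟨h1, h2⟩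
    obtain ⟨g, rfl⟩ := exists_of_isGroupTopology hσ
    exact (cover_of_strongMax H2_lt_H1 strongMax_H2).2
      (lt_iff_top.2 (less_iff.1 h2)) (lt_iff_top.2 (less_iff.1 h1))
  · intro x
    exact ⟨isGroupTopology_of _, tau_t2 _,
      less_iff.2 (lt_iff_top.1 (tau_lt_iff.2 (KA_lt_top _))),
      less_iff.2 (lt_iff_top.1 (tau_lt_iff.2 (H2_lt_KA _)))⟩
  · intro x y hxy
    obtain ⟨h1, p, hp, h2, h3⟩ := hS x y hxy
    exact less_iff.2 (lt_iff_top.1 (tau_lt_iff.2 (KA_lt_iff.2 (loc_lt h1 hp h2 h3))))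

end Pool.Agent.Results.MP_2f4300_al.RealChain
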